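import Pool.Agent.Helper93.TCU.Stmts
import Pool.Agent.Helper93.TCU.Bas
import Pool.Agent.Helper3.TCS.E2

/-!
# The mean of `Psi2` (module E2)

As `Pool.TCS.thm_E2`: the minimum is at most its first argument, and the mean of
`1 - β kP + β² npP / 2` is `1 - pq`.
-/

set_option autoImplicit false

namespace Pool.TCU

open Pool.TC Pool.TCM Pool.TCS Finset
open scoped Classical

theorem thm_E2 (hMean : St_Mean) : St_E2 := by
  intro V κ _ _ S U L D l m K x q Lam e hH he w hw b hb
  have hl : 0 < l := hH.l0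
  have : Nonempty (Fin l) := ⟨⟨0, hl⟩⟩
  have hcard : (0 : ℝ) < Fintype.card (V → Fin l) := by
    have : 0 < Fintype.card (V → Fin l) := Fintype.card_pos
    exact_mod_cast this
  have m1 := E2_mean1 hMean S U L hl e he w b
  have m2 := E2_mean2 hMean S U L hl e he w b
  have hE1 : fK S U L l m K q w b ≤ 1 / 2 := hH.fK_le hw hb
  have hmul := hH.fK_mul hw hb
  have hbe0 : 0 < bet m K := hH.bet_pos
  have hbe1 : bet m K ≤ 1 / 192 := hH.bet_le'
  have hpq : 1 - pq S U L l m K w b = 1 - bet m K * (((Pn S U L w b).card : ℝ) / l) +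
      bet m K ^ 2 / 2 * (npair S (Pn S U L w b) / (l : ℝ) ^ 2) := by
    unfold pq
    ring
  rw [← hmul, hpq, ← m1, ← m2]
  unfold Psi2
  generalize fK S U L l m K q w b = E at hE1
  generalize hβ : bet m K = be at hbe0 hbe1
  have h1 : mean (fun ω : V → Fin l => (1 - be) * (1 - be * ((KP S U (oc e ω) w b).card : ℝ) +
      be ^ 2 / 2 * min (npair S (KP S U (oc e ω) w b)) (2 * (K : ℝ) ^ 2)) * (1 - E)) ≤
      mean (fun ω : V → Fin l => (1 - be) * (1 - be * ((KP S U (oc e ω) w b).card : ℝ) +
        be ^ 2 / 2 * npair S (KP S U (oc e ω) w b)) * (1 - E)) := by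
    unfold mean
    apply div_le_div_of_nonneg_right _ hcard.le
    apply sum_le_sum
    intro ω _
    apply mul_le_mul_of_nonneg_right _ (by linarith)
    apply mul_le_mul_of_nonneg_left _ (by linarith)
    have h2 : min (npair S (KP S U (oc e ω) w b)) (2 * (K : ℝ) ^ 2) ≤
      npair S (KP S U (oc e ω) w b) := min_le_left _ _
    have h3 := mul_le_mul_of_nonneg_left h2 (by positivity : (0 : ℝ) ≤ be ^ 2 / 2)
    linarith
  refine h1.trans (le_of_eq ?_)
  unfold mean
  rw [← sum_mul, ← mul_sum]
  simp only [sum_add_distrib, sum_sub_distrib, ← mul_sum, sum_const, card_univ, nsmul_eq_mul,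
    mul_one]
  field_simp

end Pool.TCU
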