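import Pool.Agent.Helper93.TCU.SStmt2

/-!
# The bound for the kill probability is monotone (module SMon)

The number of the ordered pairs of `A'` which are not pairs of `A` is at most `2 |A' \ A| |A'|`.
-/

set_option autoImplicit false

namespace Pool.TCU

open Pool.TC Pool.TCM Pool.TCS Pool.TCV Finset
open scoped Classical

theorem thm_SMon : St_SMon := by
  intro V κ _ S A A' b l hA hb hl hbl
  have h1 : npair S A' ≤ npair S A + ((A' \ A).card : ℝ) * A'.card := by
    unfold npair
    have h2 : (A' ×ˢ A').filter (fun p => p.1 ≠ p.2 ∧ ¬ S.adj p.1 p.2) ⊆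
        (A ×ˢ A).filter (fun p => p.1 ≠ p.2 ∧ ¬ S.adj p.1 p.2) ∪
          (((A' \ A) ×ˢ A') ∪ (A' ×ˢ (A' \ A))) := by
      intro p hp
      rw [mem_filter, mem_product] at hp
      rw [mem_union, mem_union, mem_filter, mem_product, mem_product, mem_product, mem_sdiff,
        mem_sdiff]
      by_cases p1 : p.1 ∈ A
      · by_cases p2 : p.2 ∈ A
        · exact Or.inl ⟨⟨p1, p2⟩, hp.2⟩
        · exact Or.inr (Or.inr ⟨hp.1.1, hp.1.2, p2⟩)
      · exact Or.inr (Or.inl ⟨⟨hp.1.1, p1⟩, hp.1.2⟩)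
    have h3 := (card_le_card h2).trans (card_union_le _ _)
    have h4 := card_union_le ((A' \ A) ×ˢ A') (A' ×ˢ (A' \ A))
    rw [card_product, card_product] at h4
    have h5 := h3.trans (Nat.add_le_add_left h4 _)
    have h6 : (((A' ×ˢ A').filter (fun p => p.1 ≠ p.2 ∧ ¬ S.adj p.1 p.2)).card : ℝ) ≤
        (((A ×ˢ A).filter (fun p => p.1 ≠ p.2 ∧ ¬ S.adj p.1 p.2)).card : ℝ) +
          (((A' \ A).card : ℝ) * A'.card + (A'.card : ℝ) * (A' \ A).card) := by
      exact_mod_cast h5
    linarith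
  have h2 : ((A' \ A).card : ℝ) = A'.card - A.card := by
    have := card_sdiff_add_card_eq_card hA
    have h3 : ((A' \ A).card : ℝ) + A.card = A'.card := by exact_mod_cast this
    linarith
  have h3 : (0 : ℝ) ≤ ((A' \ A).card : ℝ) := Nat.cast_nonneg _
  have h4 : b ^ 2 / 2 * npair S A' / l ^ 2 ≤ b ^ 2 / 2 * npair S A / l ^ 2 +
      b * ((A' \ A).card : ℝ) / l := by
    have h5 : b ^ 2 / 2 * npair S A' / l ^ 2 ≤
        b ^ 2 / 2 * (npair S A + ((A' \ A).card : ℝ) * A'.card) / l ^ 2 := by gcongr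
    refine h5.trans ?_
    have h6 : b ^ 2 / 2 * (npair S A + ((A' \ A).card : ℝ) * A'.card) / l ^ 2 =
        b ^ 2 / 2 * npair S A / l ^ 2 +
          (b * ((A' \ A).card : ℝ) / l) * (b * A'.card / (2 * l)) := by
      field_simp
    rw [h6]
    have h7 : b * A'.card / (2 * l) ≤ 1 := by
      rw [div_le_one (by positivity)]
      exact hbl
    have h8 : 0 ≤ b * ((A' \ A).card : ℝ) / l := by positivity
    have h9 := mul_le_mul_of_nonneg_left h7 h8
    linarith
  rw [h2] at h4
  have h5 : b * ((A'.card : ℝ) - A.card) / l = b * A'.card / l - b * A.card / l := by ring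
  rw [h5] at h4
  linarith

end Pool.TCU
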